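import Pool.Agent.H93.EN.Targets4

namespace Pool.Agent.H82.EN

open MeasureTheory Set Metric Filter Topology Pool.Agent.H93.EN
open Pool.Agent.H93.BL hiding T_B1 T_B2 T_B3 T_SB T_SC

theorem fi2 (h1 : T_INT) : T_FI2 := by
  intro ι D hloc hsm
  obtain ⟨hΩm, -, hfm, hfb, -, -, -⟩ := h1 ι D
  have hli : LocallyIntegrable D.f0 (volume : Measure ℂ) := by
    intro x
    refine ⟨ball x 1, ball_mem_nhds x one_pos, ?_⟩
    refine Measure.integrableOn_of_bounded (M := 1) ?_ hfm.aestronglyMeasurable ?_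
    · exact measure_ball_lt_top.ne
    · refine Eventually.of_forall fun y => ?_
      rw [Real.norm_eq_abs, abs_of_nonneg (hfb y).1]
      exact (hfb y).2
  have hae : ∀ (x : ℂ) (s : ℝ), 0 < s → closedBall x s =ᵐ[(volume : Measure ℂ)] ball x s := by
    intro x s hs
    refine (ball_subset_closedBall.eventuallyLE.antisymm ?_).symm
    refine ae_le_set.2 ?_
    rw [closedBall_sdiff_ball]
    exact Measure.addHaar_sphere_of_ne_zero volume x hs.ne'
  have hcb : ∀ (x : ℂ) (s : ℝ), 0 < s →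
      (∫ y in closedBall x s, D.f0 y) = ∫ y in ball x s, D.f0 y := by
    intro x s hs
    exact setIntegral_congr_set (hae x s hs)
  have hcv : ∀ (x : ℂ) (s : ℝ), 0 < s →
      volume.real (closedBall x s) = volume.real (ball x s) := by
    intro x s hs
    exact measureReal_congr (hae x s hs)
  -- the key estimate
  have key : ∀ ε > (0 : ℝ), ∀ x ∈ D.P.Ω, ∃ s₀ > (0 : ℝ), ∀ s ∈ Ioo 0 s₀,
      ∫ y in ball x s, D.f0 y ≤ ε * volume.real (ball x s) := by
    intro ε hε
    obtain ⟨x₀, s₁, hs₁, hb, hle⟩ := hsm ε hε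
    set Q : ℂ → Prop := fun x => ∃ s₀ > (0 : ℝ), ∀ s ∈ Ioo 0 s₀,
      ∫ y in ball x s, D.f0 y ≤ ε * volume.real (ball x s) with hQ
    have hvol : ∀ (x x' : ℂ) (s : ℝ), volume.real (ball x s) = volume.real (ball x' s) := by
      intro x x' s
      simp only [Measure.real, Complex.volume_ball]
    have htr : ∀ x ∈ D.P.Ω, ∃ R > (0 : ℝ), ball x R ⊆ D.P.Ω ∧ ∀ x' ∈ ball x R, ∀ x'' ∈ ball x R,
        Q x' → Q x'' := by
      intro x hx
      obtain ⟨R, hR, hRb⟩ := Metric.isOpen_iff.1 D.P.isOpen x hx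
      refine ⟨R / 2, by positivity, (ball_subset_ball (by linarith)).trans hRb, ?_⟩
      intro x' hx' x'' hx'' ⟨s₀, hs₀, hs⟩
      refine ⟨min s₀ (R / 4), by positivity, ?_⟩
      intro s hs'
      have h1 := hloc x (R / 2) (by positivity) (by
        rw [mul_div_cancel₀ R (two_ne_zero)]; exact hRb) x' hx' x'' hx'' s
        ⟨hs'.1, by have := hs'.2.trans_le (min_le_right _ _); linarith⟩
      rw [← h1, hvol x'' x' s]
      exact hs s ⟨hs'.1, hs'.2.trans_le (min_le_left _ _)⟩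
    have hQx₀ : Q x₀ := by
      refine ⟨s₁, hs₁, ?_⟩
      intro s hs
      have h2 : ∫ y in ball x₀ s, D.f0 y ≤ ∫ y in ball x₀ s, ε := by
        refine setIntegral_mono_on ?_ ?_ measurableSet_ball ?_
        · refine Measure.integrableOn_of_bounded (M := 1) measure_ball_lt_top.ne
            hfm.aestronglyMeasurable ?_
          refine Eventually.of_forall fun y => ?_
          rw [Real.norm_eq_abs, abs_of_nonneg (hfb y).1]
          exact (hfb y).2
        · exact integrableOn_const measure_ball_lt_top.ne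
        · intro y hy
          exact hle y (ball_subset_ball hs.2.le hy)
      rw [setIntegral_const, smul_eq_mul, mul_comm] at h2
      exact h2
    set U : Set ℂ := {x | x ∈ D.P.Ω ∧ Q x} with hU
    set V : Set ℂ := {x | x ∈ D.P.Ω ∧ ¬ Q x} with hV
    have hUo : IsOpen U := by
      rw [Metric.isOpen_iff]
      rintro x ⟨hx, hxQ⟩
      obtain ⟨R, hR, hRΩ, ht⟩ := htr x hx
      exact ⟨R, hR, fun y hy => ⟨hRΩ hy, ht x (mem_ball_self hR) y hy hxQ⟩⟩
    have hVo : IsOpen V := by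
      rw [Metric.isOpen_iff]
      rintro x ⟨hx, hxQ⟩
      obtain ⟨R, hR, hRΩ, ht⟩ := htr x hx
      exact ⟨R, hR, fun y hy => ⟨hRΩ hy, fun h => hxQ (ht y hy x (mem_ball_self hR) h)⟩⟩
    have hcov : D.P.Ω ⊆ U ∪ V := by
      intro x hx
      by_cases h : Q x
      · exact Or.inl ⟨hx, h⟩
      · exact Or.inr ⟨hx, h⟩
    have hdis : D.P.Ω ∩ (U ∩ V) = ∅ := by
      ext x
      simp only [mem_inter_iff, mem_empty_iff_false, iff_false, not_and]
      rintro - ⟨-, h⟩ ⟨-, h'⟩
      exact h' h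
    have hx₀ : x₀ ∈ D.P.Ω := hb (mem_ball_self hs₁)
    rcases isPreconnected_iff_subset_of_disjoint.1 D.P.isConnected.isPreconnected U V hUo hVo
      hcov hdis with h | h
    · intro x hx
      exact (h hx).2
    · exact absurd hQx₀ (h hx₀).2
  have hleb := IsUnifLocDoublingMeasure.ae_tendsto_average (μ := (volume : Measure ℂ)) hli 1
  rw [ae_restrict_iff' hΩm]
  filter_upwards [hleb] with x hx hxΩ
  have hseq : Tendsto (fun n : ℕ => (1 : ℝ) / (n + 1)) atTop (𝓝[>] 0) := by
    refine tendsto_nhdsWithin_iff.2 ⟨tendsto_one_div_add_atTop_nhds_zero_nat, ?_⟩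
    exact Eventually.of_forall fun n => mem_Ioi.2 (by positivity)
  have hlim := hx (fun _ : ℕ => x) (fun n : ℕ => (1 : ℝ) / (n + 1)) hseq
    (Eventually.of_forall fun n => by
      rw [one_mul]; exact mem_closedBall_self (by positivity))
  refine le_antisymm ?_ (hfb x).1
  refine le_of_forall_pos_le_add fun ε hε => ?_
  rw [zero_add]
  obtain ⟨s₀, hs₀, hs⟩ := key ε hε x hxΩ
  refine le_of_tendsto hlim ?_
  have hev : ∀ᶠ n : ℕ in atTop, (1 : ℝ) / (n + 1) < s₀ := by
    have := tendsto_one_div_add_atTop_nhds_zero_nat (𝕜 := ℝ)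
    exact this.eventually (gt_mem_nhds hs₀)
  filter_upwards [hev] with n hn
  have hpos : (0 : ℝ) < 1 / ((n : ℝ) + 1) := by positivity
  have h3 := hs (1 / ((n : ℝ) + 1)) ⟨hpos, hn⟩
  rw [setAverage_eq, hcb x _ hpos, hcv x _ hpos, smul_eq_mul]
  have hv : 0 < volume.real (ball x (1 / ((n : ℝ) + 1))) := by
    rw [Measure.real, ENNReal.toReal_pos_iff]
    exact ⟨measure_ball_pos _ _ hpos, measure_ball_lt_top⟩
  rw [inv_mul_le_iff₀ hv, mul_comm]
  exact h3

end Pool.Agent.H82.EN
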